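import Pool.Agent.H40.BPool.Assembly

/-!
# The critical Brownian Pool model does not explode

The model (pool dynamics, Poisson starting points, independent planar Brownian motions) is defined
in `Pool.Agent.H40.BPool.Model`.

Idea of the proof. Fix a time `T`. Ignoring absorption, the number of particles that visit the
disc `B(R)` before time `T` has mean `π R² + O(R)` and fluctuations of order `R`, and the
fluctuations at sparse scales are independent. Hence almost surely there are arbitrarily large
`R` for which fewer than `π R² - 1` particles visit `B(R)` before `T`. For such an `R` the pool
cannot cross radius `R` before time `T`, since a pool of radius `r` has absorbed `π r² - 1`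
particles.
-/

open MeasureTheory ProbabilityTheory
open scoped ENNReal NNReal

namespace Pool.Agent.Results.MP_2ce40c_pr.CriticalNonExplosion

open Pool.Agent.H40.BPool

/-- At the critical intensity `1`, the Brownian Pool model almost surely does not explode: almost
surely its radius is finite at every finite time. -/
theorem result {Ω : Type*} [MeasurableSpace Ω] (P : Measure Ω) [IsProbabilityMeasure P]
    (X : ℕ → Ω → Plane) (B : ℕ → ℝ≥0 → Ω → Plane) (h : IsPoolInput 1 X B P) :
    ∀ᵐ ω ∂P, ¬ Explodes (fun i t => X i ω + B i t ω) :=
  ae_not_explodes h

end Pool.Agent.Results.MP_2ce40c_pr.CriticalNonExplosion
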